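import Mathlib
import Pool.Agent.H713R2.AR.PR
import Pool.Agent.T6.H50.LC.Sys

set_option autoImplicit false

/-! # Properties of the system of parameter maps (module F1b of helper50's project) -/

open Complex Topology Filter Metric MeasureTheory Set N62a1eb23

namespace Pool.Agent.T6.H11.LC

open Pool.Agent.H713R2 Pool.Agent.H712R2 Pool.Agent.T6.H50.LC

/-! ## Elementary facts -/

theorem E_sub (s : Bool) : E s ⊆ LO τ₀ (-4 / 5) (4 / 5) := by
  intro z hz
  obtain ⟨h1, h2⟩ := hz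
  have h3 : 1 < |z.im| := by
    cases s
    · simp only [Bool.false_eq_true, if_false] at h2
      exact lt_of_lt_of_le h2 (neg_le_abs _)
    · simp only [if_true] at h2
      exact lt_of_lt_of_le h2 (le_abs_self _)
  have h4 : ‖z‖ ^ 2 = z.re ^ 2 + z.im ^ 2 := by
    rw [Complex.sq_norm, Complex.normSq_apply]; ring
  have h5 : ‖z‖ ^ 2 < (3 * 10 ^ 8) ^ 2 := by
    have := norm_nonneg z
    exact pow_lt_pow_left₀ h1 this two_ne_zero
  show lf τ₀ (-4 / 5) (4 / 5) z < 0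
  unfold lf τ₀
  nlinarith

/-- The words stay in the lens. -/
theorem Tw_mem {c₀ δ : ℝ}
    (good : ∀ c ∈ ball (c₀ : ℂ) δ, ∀ z ∈ LL τ₀ (-4 / 5) (4 / 5),
      Good c z ∧ G c (G c z) ∈ LO τ₀ (1 / 25) (16 / 25)) {c : ℂ} (hc : c ∈ ball (c₀ : ℂ) δ)
    {v : ℂ} (hv : v ∈ LL τ₀ (-4 / 5) (4 / 5)) (I : List Bool) :
    Tw I c v ∈ LL τ₀ (-4 / 5) (4 / 5) := by
  induction I with
  | nil => exact hv
  | cons σ I ih =>
    have h1 := LO_subset_LL _ _ _ (good c hc _ ih).2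
    have hτ : (0:ℝ) ≤ τ₀ := by unfold τ₀; positivity
    show T σ c (Tw I c v) ∈ _
    unfold T
    split_ifs
    · exact lens_mono hτ (by norm_num) (by norm_num) (by norm_num) h1
    · exact lens_mono hτ (by norm_num) (by norm_num) (by norm_num) (neg_lens h1)

theorem T_mem_LO {c₀ δ : ℝ}
    (good : ∀ c ∈ ball (c₀ : ℂ) δ, ∀ z ∈ LL τ₀ (-4 / 5) (4 / 5),
      Good c z ∧ G c (G c z) ∈ LO τ₀ (1 / 25) (16 / 25)) {c : ℂ} (hc : c ∈ ball (c₀ : ℂ) δ)
    {v : ℂ} (hv : v ∈ LL τ₀ (-4 / 5) (4 / 5)) (σ : Bool) :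
    T σ c v ∈ LO τ₀ (-4 / 5) (4 / 5) := by
  have h1 := LO_subset_LL _ _ _ (good c hc _ hv).2
  have hτ : (0:ℝ) ≤ τ₀ := by unfold τ₀; positivity
  unfold T
  split_ifs
  · exact LL_subset_LO hτ (by norm_num) (by norm_num) (by norm_num) h1
  · exact LL_subset_LO hτ (by norm_num) (by norm_num) (by norm_num) (neg_lens h1)

theorem fc_g (c z : ℂ) : fc 2 c (g c z) = z := g_sq c z

theorem fc_iter_g (c : ℂ) (m : ℕ) (z : ℂ) : (fc 2 c)^[m] ((g c)^[m] z) = z := by
  induction m generalizing z with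
  | zero => rfl
  | succ m ih =>
    rw [Function.iterate_succ_apply, Function.iterate_succ_apply', fc_g, ih]

theorem fc4_T (σ : Bool) (c z : ℂ) : (fc 2 c)^[4] (T σ c z) = z := by
  have h1 : fc 2 c (T σ c z) = g c (G c z) := T_sq σ c z
  have h2 : fc 2 c (G c z) = g c z := G_sq c z
  show fc 2 c (fc 2 c (fc 2 c (fc 2 c (T σ c z)))) = z
  rw [h1, fc_g, h2, fc_g]

theorem fc_iter_Tw (c : ℂ) (I : List Bool) (v : ℂ) :
    (fc 2 c)^[4 * I.length] (Tw I c v) = v := by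
  induction I with
  | nil => rfl
  | cons σ I ih =>
    rw [List.length_cons, Nat.mul_add, mul_one, Function.iterate_add_apply]
    show (fc 2 c)^[4 * I.length] ((fc 2 c)^[4] (T σ c (Tw I c v))) = v
    rw [fc4_T, ih]

theorem Tw_append (I : List Bool) (σ : Bool) (c v : ℂ) :
    Tw (I ++ [σ]) c v = Tw I c (T σ c v) := by
  induction I with
  | nil => rfl
  | cons τ I ih =>
    show T τ c (Tw (I ++ [σ]) c v) = T τ c (Tw I c (T σ c v))
    rw [ih]

theorem T_inj (σ : Bool) {c x y : ℂ} (h : T σ c x = T σ c y) : x = y := by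
  rw [← fc4_T σ c x, ← fc4_T σ c y, h]

theorem Tw_inj {c₀ δ : ℝ}
    (good : ∀ c ∈ ball (c₀ : ℂ) δ, ∀ z ∈ LL τ₀ (-4 / 5) (4 / 5),
      Good c z ∧ G c (G c z) ∈ LO τ₀ (1 / 25) (16 / 25)) {c : ℂ} (hc : c ∈ ball (c₀ : ℂ) δ)
    {u v : ℂ} (hu : u ∈ LL τ₀ (-4 / 5) (4 / 5)) (hv : v ∈ LL τ₀ (-4 / 5) (4 / 5)) :
    ∀ I J : List Bool, I.length = J.length → Tw I c u = Tw J c v → I = J := by
  intro I
  induction I with
  | nil =>
    intro J hJ _
    rw [List.length_nil] at hJ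
    exact (List.length_eq_zero_iff.mp hJ.symm).symm
  | cons σ I ih =>
    intro J hJ hT
    cases J with
    | nil => simp at hJ
    | cons τ J =>
      have h1 : T σ c (Tw I c u) = T τ c (Tw J c v) := hT
      have hI := Tw_mem good hc hu I
      have hJ' := Tw_mem good hc hv J
      have r1 := T_re σ (good c hc _ hI).1
      have r2 := T_re τ (good c hc _ hJ').1
      have hστ : σ = τ := by
        rw [h1] at r1
        cases σ <;> cases τ <;> simp at r1 r2 ⊢ <;> linarith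
      subst hστ
      have h2 := T_inj σ h1
      rw [ih J (by simpa using hJ) h2]

/-- Outside the Mandelbrot set. -/
theorem escape_one {c₀ : ℝ} (hc₀ : -15437 / 10000 < c₀ ∧ c₀ < -15436 / 10000) {c v : ℂ}
    (hc : ‖c - c₀‖ ≤ 1 / 10000) (hv : 1 < |v.im|) : 2 < ‖v ^ 2 + c‖ := by
  have h1 : 6 ≤ ‖v ^ 2 + (c₀ : ℂ)‖ ^ 2 := by
    rw [Complex.sq_norm, Complex.normSq_apply]
    have hre : (v ^ 2 + (c₀ : ℂ)).re = v.re ^ 2 - v.im ^ 2 + c₀ := by simp [pow_two]
    have him : (v ^ 2 + (c₀ : ℂ)).im = 2 * v.re * v.im := by simp [pow_two]; ring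
    rw [hre, him]
    have hy : 1 < v.im ^ 2 := by
      rw [← sq_abs]; nlinarith [abs_nonneg v.im]
    set x := v.re ^ 2 with hx
    set y := v.im ^ 2 with hyy
    have hx0 : 0 ≤ x := sq_nonneg _
    have e : (x - y + c₀) * (x - y + c₀) + 2 * v.re * v.im * (2 * v.re * v.im) =
        (x + y) ^ 2 + 2 * c₀ * (x - y) + c₀ ^ 2 := by rw [hx, hyy]; ring
    rw [e]
    obtain ⟨hc1, hc2⟩ := hc₀
    nlinarith [mul_nonneg hx0 (by linarith : 0 ≤ y - 1), mul_nonneg hx0 hx0, sq_nonneg (x - 6 / 10),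
      mul_nonneg hx0 (by linarith : 0 ≤ c₀ + 15437 / 10000),
      mul_nonneg (by linarith : 0 ≤ y - 1) (by linarith : 0 ≤ -c₀ - 15436 / 10000),
      mul_nonneg (by linarith : 0 ≤ y - 1) (by linarith : 0 ≤ y - 1)]
  have h2 : 22 / 10 ≤ ‖v ^ 2 + (c₀ : ℂ)‖ := by
    by_contra hcon
    push Not at hcon
    nlinarith [norm_nonneg (v ^ 2 + (c₀ : ℂ))]
  have h3 : ‖v ^ 2 + (c₀ : ℂ)‖ ≤ ‖v ^ 2 + c‖ + ‖c - c₀‖ := by
    have : v ^ 2 + (c₀ : ℂ) = (v ^ 2 + c) - (c - c₀) := by ring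
    rw [this]; exact norm_sub_le _ _
  linarith

/-! ## Numerics for the base point -/

theorem V0_bounds {c₀ : ℝ} (hc₀ : -15437 / 10000 < c₀ ∧ c₀ < -15436 / 10000) :
    -46 * 10 ^ 6 ≤ (V0 c₀).re ∧ (V0 c₀).re ≤ -45 * 10 ^ 6 ∧
    251 * 10 ^ 6 ≤ (V0 c₀).im ∧ (V0 c₀).im ≤ 252 * 10 ^ 6 := by
  obtain ⟨hc1, hc2⟩ := hc₀
  have step : ∀ (z : ℂ), (z ^ 2 + (c₀ : ℂ)).re = z.re ^ 2 - z.im ^ 2 + c₀ ∧
      (z ^ 2 + (c₀ : ℂ)).im = 2 * z.re * z.im := by
    intro z
    constructor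
    · simp [pow_two]
    · simp [pow_two]; ring
  set y0 : ℂ := 1 + 3 * I with hy0
  have a0 : y0.re = 1 := by simp [hy0]
  have b0 : y0.im = 3 := by simp [hy0]
  set y1 : ℂ := y0 ^ 2 + c₀ with hy1
  have a1 : y1.re = -8 + c₀ := by rw [hy1, (step y0).1, a0, b0]; norm_num
  have b1 : y1.im = 6 := by rw [hy1, (step y0).2, a0, b0]; norm_num
  set y2 : ℂ := y1 ^ 2 + c₀ with hy2
  have a2 : y2.re = (-8 + c₀) ^ 2 - 36 + c₀ := by rw [hy2, (step y1).1, a1, b1]; norm_num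
  have b2 : y2.im = 12 * (-8 + c₀) := by rw [hy2, (step y1).2, a1, b1]; ring
  have a2l : 535364 / 10000 ≤ y2.re := by rw [a2]; nlinarith
  have a2u : y2.re ≤ 535388 / 10000 := by rw [a2]; nlinarith
  have b2l : -1145245 / 10000 ≤ y2.im := by rw [b2]; linarith
  have b2u : y2.im ≤ -1145230 / 10000 := by rw [b2]; linarith
  set y3 : ℂ := y2 ^ 2 + c₀ with hy3
  obtain ⟨a3, b3⟩ := step y2
  rw [← hy3] at a3 b3
  have a3l : -10252 ≤ y3.re := by rw [a3]; nlinarith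
  have a3u : y3.re ≤ -10250 := by rw [a3]; nlinarith
  have b3l : -12264 ≤ y3.im := by rw [b3]; nlinarith
  have b3u : y3.im ≤ -12261 := by rw [b3]; nlinarith
  obtain ⟨a4, b4⟩ := step y3
  have hV : V0 c₀ = y3 ^ 2 + c₀ := rfl
  rw [hV, a4, b4]
  refine ⟨?_, ?_, ?_, ?_⟩ <;> nlinarith

theorem V0_norm {c₀ : ℝ} (hc₀ : -15437 / 10000 < c₀ ∧ c₀ < -15436 / 10000) :
    25 * 10 ^ 7 ≤ ‖V0 c₀‖ ∧ ‖V0 c₀‖ ≤ 26 * 10 ^ 7 := by
  obtain ⟨h1, h2, h3, h4⟩ := V0_bounds hc₀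
  have h5 : ‖V0 c₀‖ ^ 2 = (V0 c₀).re ^ 2 + (V0 c₀).im ^ 2 := by
    rw [Complex.sq_norm, Complex.normSq_apply]; ring
  have h6 := norm_nonneg (V0 c₀)
  constructor
  · have := Complex.abs_im_le_norm (V0 c₀)
    have := le_abs_self (V0 c₀).im
    linarith
  · by_contra hcon
    push Not at hcon
    nlinarith

theorem V0_ratio {c₀ : ℝ} (hc₀ : -15437 / 10000 < c₀ ∧ c₀ < -15436 / 10000) {a b : ℂ}
    (hb : ‖b‖ = ‖V0 c₀‖) (hab : ‖a - b‖ = 2 * (V0 c₀).im) : 1 / 2 ≤ ‖a / b - 1‖ := by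
  obtain ⟨h1, h2⟩ := V0_norm hc₀
  obtain ⟨h3, h4, h5, h6⟩ := V0_bounds hc₀
  have hb0 : b ≠ 0 := by
    rw [← norm_pos_iff, hb]; linarith
  have h7 : a / b - 1 = (a - b) / b := by field_simp
  rw [h7, norm_div, hab, hb, le_div_iff₀ (by linarith)]
  linarith

theorem norm_V0_sub_conj (z : ℂ) (hz : 0 ≤ z.im) :
    ‖z - (starRingEnd ℂ) z‖ = 2 * z.im := by
  rw [Complex.sub_conj, norm_mul, Complex.norm_I, mul_one, Complex.norm_real, Real.norm_eq_abs,
    abs_of_nonneg (by positivity)]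

/-! ## The main statement -/

theorem sys_props {c₀ δ δ₁ L : ℝ} {m : ℕ} {κ : List Bool → ℂ → ℂ} (h : KSys c₀ δ δ₁ L m κ) :
    ∃ vv : Bool → ℂ, vv true = V0 c₀ ∧ vv false = (starRingEnd ℂ) (V0 c₀) ∧
    (∀ s, vv s ∈ LO τ₀ (-4 / 5) (4 / 5)) ∧
    (∀ I : List Bool, I ≠ [] → ∀ s, DifferentiableOn ℂ (κ I) (E s)) ∧
    (∀ I : List Bool, I ≠ [] → ∀ s, ∀ v ∈ E s, κ I v ∉ multibrotSet 2) ∧
    (∀ I : List Bool, I ≠ [] → ∀ s, ∀ v ∈ E s, P 2 (3 + m + 4 * I.length) (κ I v) = v) ∧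
    (∀ I : List Bool, I ≠ [] → ∀ σ s : Bool, ∃ w : ℂ, ‖w‖ ≤ 10 ∧
      2 ≤ (if (s == σ) then w.im else -w.im) ∧ κ (I ++ [σ]) (vv s) = κ I w) ∧
    (∀ I J : List Bool, I ≠ [] → I.length = J.length → ∀ s t,
      κ I (vv s) = κ J (vv t) → I = J) ∧
    (∀ s, 10000 ≤ ‖vv s‖ ∧ ‖vv s‖ ≤ 29 * 10 ^ 7 ∧ 2 ≤ (if s then (vv s).im else -(vv s).im)) ∧
    (‖vv true‖ = ‖vv false‖ ∧ 1 / 2 ≤ ‖vv true / vv false - 1‖ ∧
      1 / 2 ≤ ‖vv false / vv true - 1‖) := by
  have hτ : (0:ℝ) ≤ τ₀ := by unfold τ₀; positivity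
  obtain ⟨nl, nu⟩ := V0_norm h.hc₀
  obtain ⟨rl, ru, il, iu⟩ := V0_bounds h.hc₀
  set vv : Bool → ℂ := fun s => if s then V0 c₀ else (starRingEnd ℂ) (V0 c₀) with hvv
  have vt : vv true = V0 c₀ := by simp [hvv]
  have vf : vv false = (starRingEnd ℂ) (V0 c₀) := by simp [hvv]
  have vn : ∀ s : Bool, ‖vv s‖ = ‖V0 c₀‖ := by
    intro s
    cases s
    · rw [vf]; exact RCLike.norm_conj _
    · rw [vt]
  have vim : ∀ s : Bool, (if s then (vv s).im else -(vv s).im) = (V0 c₀).im := by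
    intro s
    cases s
    · simp [vf]
    · simp [vt]
  have vE : ∀ s : Bool, vv s ∈ E s := by
    intro s
    refine ⟨?_, ?_⟩
    · rw [vn]; linarith
    · rw [vim]; linarith
  have vLO : ∀ s : Bool, vv s ∈ LO τ₀ (-4 / 5) (4 / 5) := fun s => E_sub s (vE s)
  have hUU : ∀ I : List Bool, I ≠ [] → UU I = LO τ₀ (-4 / 5) (4 / 5) := by
    intro I hI
    unfold UU
    rw [if_neg hI]
  have hmem : ∀ I : List Bool, ∀ v ∈ UU I, κ I v ∈ ball (c₀ : ℂ) δ := by
    intro I v hv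
    exact closedBall_subset_ball h.hδ₁.2 (h.mem I v hv)
  have hP : ∀ I : List Bool, I ≠ [] → ∀ s, ∀ v ∈ E s,
      P 2 (3 + m + 4 * I.length) (κ I v) = v := by
    intro I hI s v hv
    have hvU : v ∈ UU I := by rw [hUU I hI]; exact E_sub s hv
    have h1 := h.eq I v hvU
    unfold P at h1 ⊢
    rw [show 3 + m + 4 * I.length = 4 * I.length + (m + 3) by ring, Function.iterate_add_apply,
      Function.iterate_add_apply, h1, fc_iter_g, fc_iter_Tw]
  have hcb : ∀ c ∈ ball (c₀ : ℂ) δ, (starRingEnd ℂ) c ∈ ball (c₀ : ℂ) δ := by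
    intro c hc
    rw [mem_ball, dist_eq_norm] at hc ⊢
    have : (starRingEnd ℂ) c - (c₀ : ℂ) = (starRingEnd ℂ) (c - c₀) := by
      rw [map_sub, Complex.conj_ofReal]
    rw [this]
    rw [RCLike.norm_conj]
    exact hc
  refine ⟨vv, vt, vf, vLO, ?_, ?_, hP, ?_, ?_, ?_, ?_⟩
  · intro I hI s
    have h1 := h.diff I
    rw [hUU I hI] at h1
    exact h1.mono (E_sub s)
  · intro I hI s v hv hM
    have h1 := hP I hI s v hv
    have h2 := (mem_multibrot_iff le_rfl (κ I v)).mp hM (3 + m + 4 * I.length + 1)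
    rw [P_succ, h1] at h2
    have hvU : v ∈ UU I := by rw [hUU I hI]; exact E_sub s hv
    have h3 : ‖κ I v - c₀‖ ≤ 1 / 10000 := by
      have := h.mem I v hvU
      rw [mem_closedBall, dist_eq_norm] at this
      have h4 := h.hδ.2
      have h5 := h.hδ₁.2
      linarith
    have h4 : 1 < |v.im| := by
      have h2 := hv.2
      cases s
      · simp only [Bool.false_eq_true, if_false] at h2
        exact lt_of_lt_of_le h2 (neg_le_abs _)
      · simp only [if_true] at h2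
        exact lt_of_lt_of_le h2 (le_abs_self _)
    have := escape_one h.hc₀ h3 h4
    linarith
  · intro I hI σ s
    have hI' : I ++ [σ] ≠ [] := by simp
    have hvU : vv s ∈ UU (I ++ [σ]) := by rw [hUU _ hI']; exact vLO s
    set c : ℂ := κ (I ++ [σ]) (vv s) with hc
    have hcB : c ∈ ball (c₀ : ℂ) δ := hmem _ _ hvU
    have hcC : c ∈ closedBall (c₀ : ℂ) δ₁ := h.mem _ _ hvU
    have hwLO : T σ c (vv s) ∈ LO τ₀ (-4 / 5) (4 / 5) :=
      T_mem_LO h.good hcB (LO_subset_LL _ _ _ (vLO s)) σ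
    have hwU : T σ c (vv s) ∈ UU I := by rw [hUU I hI]; exact hwLO
    -- the value
    have hw : ∃ u : ℂ, ‖u - (1 + 3 * Complex.I)‖ ≤ 1 / 2 ∧
        T true c (vv s) = (if s then u else (starRingEnd ℂ) u) := by
      cases s
      · refine ⟨T true ((starRingEnd ℂ) c) (V0 c₀), h.base _ (hcb c hcB), ?_⟩
        rw [if_neg (by simp), vf]
        have hG : Good ((starRingEnd ℂ) c) (V0 c₀) :=
          (h.good _ (hcb c hcB) _ (by
            have := LO_subset_LL _ _ _ (vLO true)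
            rw [vt] at this
            exact this)).1
        have := T_conj true hG
        rw [Complex.conj_conj] at this
        exact this
      · refine ⟨T true c (V0 c₀), h.base _ hcB, ?_⟩
        rw [if_pos rfl, vt]
    obtain ⟨u, hu1, hu2⟩ := hw
    have hun : ‖u‖ ≤ 10 := by
      have h1 : ‖u‖ ≤ ‖u - (1 + 3 * Complex.I)‖ + ‖1 + 3 * Complex.I‖ := by
        have : u = (u - (1 + 3 * Complex.I)) + (1 + 3 * Complex.I) := by ring
        calc ‖u‖ = ‖(u - (1 + 3 * Complex.I)) + (1 + 3 * Complex.I)‖ := by rw [← this]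
          _ ≤ _ := norm_add_le _ _
      have h2 : ‖1 + 3 * Complex.I‖ ≤ 1 + 3 := by
        refine (norm_add_le _ _).trans ?_
        rw [norm_mul, Complex.norm_I]
        simp
      linarith
    have huim : 2 ≤ u.im := by
      have h1 := Complex.abs_im_le_norm (u - (1 + 3 * Complex.I))
      have h2 : (u - (1 + 3 * Complex.I)).im = u.im - 3 := by simp
      rw [h2] at h1
      have h3 := neg_abs_le (u.im - 3)
      linarith
    have hTf : T false c (vv s) = -T true c (vv s) := by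
      unfold T; simp
    refine ⟨T σ c (vv s), ?_, ?_, ?_⟩
    · have : ‖T σ c (vv s)‖ = ‖u‖ := by
        cases σ
        · rw [hTf, norm_neg, hu2]
          cases s
          · simp
          · simp
        · rw [hu2]
          cases s
          · simp
          · simp
      rw [this]; exact hun
    · cases σ
      · rw [hTf, hu2]
        cases s
        · simpa using huim
        · simpa using huim
      · rw [hu2]
        cases s
        · simpa using huim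
        · simpa using huim
    · have h1 := h.est I _ hwU c hcC
      have h2 := h.eq _ _ hvU
      rw [← hc, Tw_append] at h2
      rw [h2, sub_self, norm_zero, mul_zero] at h1
      have h3 := norm_le_zero_iff.mp h1
      rw [← sub_eq_zero]
      exact h3
  · intro I J hI hIJ s t hst
    have hJ : J ≠ [] := by
      intro hJ
      rw [hJ, List.length_nil] at hIJ
      exact hI (List.length_eq_zero_iff.mp hIJ)
    have hsU : vv s ∈ UU I := by rw [hUU I hI]; exact vLO s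
    have htU : vv t ∈ UU J := by rw [hUU J hJ]; exact vLO t
    have h1 := h.eq I _ hsU
    have h2 := h.eq J _ htU
    rw [← hst] at h2
    have h3 : Tw I (κ I (vv s)) (vv s) = Tw J (κ I (vv s)) (vv t) := by
      have h4 := h1.symm.trans h2
      rw [← fc_iter_g (κ I (vv s)) m (Tw I (κ I (vv s)) (vv s)), h4, fc_iter_g]
    exact Tw_inj h.good (hmem _ _ hsU) (LO_subset_LL _ _ _ (vLO s)) (LO_subset_LL _ _ _ (vLO t))
      I J hIJ h3
  · intro s
    refine ⟨?_, ?_, ?_⟩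
    · rw [vn]; linarith
    · rw [vn]; linarith
    · rw [vim]; linarith
  · refine ⟨by rw [vn, vn], ?_, ?_⟩
    · apply V0_ratio h.hc₀ (vn false)
      rw [vt, vf]
      exact norm_V0_sub_conj _ (by linarith)
    · apply V0_ratio h.hc₀ (vn true)
      rw [vt, vf, norm_sub_rev]
      exact norm_V0_sub_conj _ (by linarith)

end Pool.Agent.T6.H11.LC
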