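import Mathlib
import Pool.Agent.H713R2.AR.PR
import Pool.Agent.R240.Strip

/-!
# Module D of the project on the coefficients of the exterior map of the Mandelbrot set
-/

set_option autoImplicit false

open Complex Topology Filter Metric Set N62a1eb23

namespace Pool.Agent.T6.H11.LC

open Pool.Agent.H713R2 Pool.Agent.H712R2 Pool.Agent.H713R2.AR

private theorem pow_one_add_sub (δ : ℂ) (K : ℕ) :
    ‖(1 + δ) ^ K - 1 - K * δ‖ ≤ (1 + ‖δ‖) ^ K - 1 - K * ‖δ‖ := by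
  induction K with
  | zero => simp
  | succ K ih =>
    have h1 : (1 + δ) ^ (K + 1) - 1 - ((K + 1 : ℕ) : ℂ) * δ =
        (1 + δ) * ((1 + δ) ^ K - 1 - K * δ) + K * (δ * δ) := by
      push_cast; ring
    have h2 : (1 + ‖δ‖) ^ (K + 1) - 1 - ((K + 1 : ℕ) : ℝ) * ‖δ‖ =
        (1 + ‖δ‖) * ((1 + ‖δ‖) ^ K - 1 - K * ‖δ‖) + K * (‖δ‖ * ‖δ‖) := by
      push_cast; ring
    rw [h1, h2]
    refine (norm_add_le _ _).trans (add_le_add ?_ ?_)
    · rw [norm_mul]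
      refine mul_le_mul ((norm_add_le _ _).trans (by simp)) ih (norm_nonneg _) (by positivity)
    · rw [norm_mul, norm_mul, Complex.norm_natCast]

private theorem pow_small {δ : ℂ} {K : ℕ} (h : K * ‖δ‖ ≤ 1 / 25) :
    ‖(1 + δ) ^ K - 1 - K * δ‖ ≤ (K * ‖δ‖) ^ 2 := by
  refine (pow_one_add_sub δ K).trans ?_
  have h0 : 0 ≤ K * ‖δ‖ := by positivity
  have h1 : (1 + ‖δ‖) ^ K ≤ Real.exp (K * ‖δ‖) := by
    rw [Real.exp_nat_mul]
    refine pow_le_pow_left₀ (by positivity) ?_ _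
    have := Real.add_one_le_exp ‖δ‖
    linarith
  have h2 := Real.abs_exp_sub_one_sub_id_le (x := K * ‖δ‖) (by rw [abs_of_nonneg h0]; linarith)
  have h3 := le_abs_self (Real.exp (K * ‖δ‖) - 1 - K * ‖δ‖)
  linarith

theorem BB_sub_one_le {β : ℂ → ℂ} (hβ : IsBeta 2 β) (n : ℕ) {x : ℂ} (hx : x ∈ ball (0 : ℂ) 1) :
    ‖BB 2 β n x - 1‖ ≤ 3 * ‖x‖ ^ (2 ^ n) := by
  obtain ⟨C, hC⟩ := hβ.order n
  have h := R240.Strip.schwarz (F := fun z => (BB 2 β n z - 1) / 3)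
    ((((BB_diff hβ.diff n).sub_const 1)).div_const 3) (fun z hz => by
      have h1 := BB_le_two le_rfl hβ n hz
      have h2 : ‖BB 2 β n z - 1‖ ≤ 3 := (norm_sub_le _ _).trans (by simp; linarith)
      rw [norm_div]
      simp only [RCLike.norm_ofNat]
      linarith) (N := 2 ^ (n + 1) - 1) (C := C / 3) (δ := 1 / 2) (by norm_num)
      (fun z hz => by
        have h1 := hC z hz
        rw [norm_div]
        simp only [RCLike.norm_ofNat]
        linarith) hx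
  rw [norm_div] at h
  simp only [RCLike.norm_ofNat] at h
  have hx1 : ‖x‖ < 1 := mem_ball_zero_iff.1 hx
  have h3 : ‖x‖ ^ (2 ^ (n + 1) - 1) ≤ ‖x‖ ^ (2 ^ n) := by
    refine pow_le_pow_of_le_one (norm_nonneg _) hx1.le ?_
    have h4 : 1 ≤ 2 ^ n := Nat.one_le_two_pow
    rw [pow_succ]
    omega
  linarith

theorem height {β : ℂ → ℂ} (hβ : IsBeta 2 β) {n : ℕ} {x v : ℂ} (hx : x ∈ ball (0 : ℂ) 1)
    (hx0 : x ≠ 0) (hP : P 2 (n + 1) (x⁻¹ * β x) = v) (hv : 100 ≤ ‖v‖) :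
    1 / 2 ≤ ‖x‖ ^ (2 ^ n) * ‖v‖ ∧ ‖x‖ ^ (2 ^ n) * ‖v‖ ≤ 2 := by
  have h1 : BB 2 β n x = x ^ (2 ^ n) * v := by rw [BB_eq le_rfl β n x hx0, hP]
  have h2 : ‖x‖ ^ (2 ^ n) * ‖v‖ = ‖BB 2 β n x‖ := by rw [h1, norm_mul, norm_pow]
  have h3 := BB_le_two le_rfl hβ n hx
  have h4 := BB_sub_one_le hβ n hx
  have h5 : 0 ≤ ‖x‖ ^ (2 ^ n) := by positivity
  have h6 : ‖x‖ ^ (2 ^ n) ≤ 1 / 50 := by nlinarith
  have h7 : 1 - ‖BB 2 β n x‖ ≤ ‖BB 2 β n x - 1‖ := by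
    have := norm_sub_norm_le (1 : ℂ) (BB 2 β n x)
    rw [norm_one, norm_sub_rev] at this
    exact this
  rw [h2]
  constructor <;> linarith

/-- `|1 + t/…|` estimate: `(r (1 + 1/(2K)))^K ≤ 2 r^K` -/
private theorem pow_grow {r : ℝ} (hr : 0 ≤ r) {K : ℕ} (hK : 1 ≤ K) :
    (r * (1 + 1 / (2 * K))) ^ K ≤ 2 * r ^ K := by
  have hK0 : (0 : ℝ) < K := by exact_mod_cast hK
  rw [mul_pow, mul_comm]
  refine mul_le_mul_of_nonneg_right ?_ (by positivity)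
  have h1 : (1 + 1 / (2 * (K : ℝ))) ^ K ≤ Real.exp (K * (1 / (2 * K))) := by
    rw [Real.exp_nat_mul]
    refine pow_le_pow_left₀ (by positivity) ?_ _
    have := Real.add_one_le_exp (1 / (2 * (K : ℝ)))
    linarith
  have h2 : (K : ℝ) * (1 / (2 * K)) = 1 / 2 := by field_simp
  rw [h2] at h1
  refine h1.trans ?_
  have h3 := Real.exp_one_lt_d9
  have h4 : Real.exp (1 / 2) ^ 2 = Real.exp 1 := by
    rw [← Real.exp_nat_mul]; norm_num
  have h5 := Real.exp_pos (1 / 2)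
  nlinarith

theorem separation {β : ℂ → ℂ} (hβ : IsBeta 2 β) {n : ℕ} {x y v w : ℂ}
    (hx : x ∈ ball (0 : ℂ) 1) (hx0 : x ≠ 0) (hy : y ∈ ball (0 : ℂ) 1) (hy0 : y ≠ 0)
    (hPx : P 2 (n + 1) (x⁻¹ * β x) = v) (hPy : P 2 (n + 1) (y⁻¹ * β y) = w)
    (hv1 : 10000 ≤ ‖v‖) (hv2 : ‖v‖ ≤ 2 ^ (2 ^ n)) (hw : ‖w‖ = ‖v‖)
    (hvw : w = v ∨ 1 / 2 ≤ ‖w / v - 1‖) (hxy : x ≠ y) :
    1 / 100 ≤ (2 : ℝ) ^ n * ‖x - y‖ := by
  by_contra hcon
  push Not at hcon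
  set K : ℕ := 2 ^ n with hKdef
  have hK1 : 1 ≤ K := Nat.one_le_two_pow
  have hKr : ((K : ℕ) : ℝ) = (2 : ℝ) ^ n := by rw [hKdef]; push_cast; rfl
  rw [← hKr] at hcon
  have hKc : ((K : ℕ) : ℂ) = (2 : ℂ) ^ n := by rw [hKdef]; push_cast; rfl
  have hK0 : (0 : ℝ) < K := by exact_mod_cast hK1
  set V : ℝ := ‖v‖ with hV
  have hV0 : 0 < V := by linarith
  have hv0 : v ≠ 0 := norm_pos_iff.1 hV0
  have hxy0 : 0 < ‖x - y‖ := norm_pos_iff.2 (sub_ne_zero.2 hxy)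
  have ex : BB 2 β n x = x ^ K * v := by rw [BB_eq le_rfl β n x hx0, hPx]
  have ey : BB 2 β n y = y ^ K * w := by rw [BB_eq le_rfl β n y hy0, hPy]
  obtain ⟨hx1, hx2⟩ := height hβ hx hx0 hPx (by linarith)
  obtain ⟨hy1, hy2⟩ := height hβ hy hy0 hPy (by rw [hw]; linarith)
  rw [← hKdef] at hx1 hx2 hy1 hy2
  rw [hw] at hy1 hy2
  -- lower bound for `|x|`, `|y|`
  have quarter : ∀ r : ℝ, 0 ≤ r → 1 / 2 ≤ r ^ K * V → 1 / 4 ≤ r := by
    intro r hr h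
    by_contra h2
    push Not at h2
    have h3 : r ^ K < (1 / 4) ^ K := pow_lt_pow_left₀ h2 hr (by omega)
    have h4 : (1 / 4 : ℝ) ^ K * 2 ^ K = (1 / 2) ^ K := by rw [← mul_pow]; norm_num
    have h5 : (1 / 2 : ℝ) ^ K ≤ (1 / 2) ^ 1 := pow_le_pow_of_le_one (by norm_num) (by norm_num) hK1
    have h6 : r ^ K * V < (1 / 4) ^ K * 2 ^ K :=
      mul_lt_mul h3 hv2 hV0 (by positivity)
    rw [h4] at h6
    linarith
  have hx4 := quarter ‖x‖ (norm_nonneg _) hx1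
  have hy4 := quarter ‖y‖ (norm_nonneg _) hy1
  -- the disc around `x`
  have hR : (0 : ℝ) < 1 / (8 * K) := by positivity
  have disc : ∀ z ∈ ball x (1 / (8 * K)), z ∈ ball (0 : ℂ) 1 ∧ ‖BB 2 β n z - 1‖ ≤ 12 / V := by
    intro z hz
    have h1 : ‖z‖ ≤ ‖x‖ * (1 + 1 / (2 * K)) := by
      have h2 : ‖z‖ ≤ ‖x‖ + ‖z - x‖ := by
        have := norm_add_le x (z - x)
        rwa [add_sub_cancel] at this
      have h3 : ‖z - x‖ < 1 / (8 * K) := by rwa [mem_ball_iff_norm] at hz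
      have h4 : 1 / (8 * (K : ℝ)) ≤ ‖x‖ * (1 / (2 * K)) := by
        have h5 : 1 / (8 * (K : ℝ)) = 1 / 4 * (1 / (2 * K)) := by field_simp; norm_num
        rw [h5]
        exact mul_le_mul_of_nonneg_right hx4 (by positivity)
      linarith
    have h2 : ‖z‖ ^ K ≤ 2 * ‖x‖ ^ K :=
      (pow_le_pow_left₀ (norm_nonneg _) h1 _).trans (pow_grow (norm_nonneg _) hK1)
    have h3 : ‖x‖ ^ K ≤ 2 / V := by rw [le_div_iff₀ hV0]; exact hx2
    have h4 : ‖z‖ ^ K ≤ 4 / V := by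
      have h5 : 2 * (2 / V) = 4 / V := by ring
      linarith
    have h5 : 4 / V < 1 := by rw [div_lt_one hV0]; linarith
    have h6 : ‖z‖ < 1 := by
      by_contra h7
      push Not at h7
      have := one_le_pow₀ h7 (n := K)
      linarith
    have h7 : z ∈ ball (0 : ℂ) 1 := mem_ball_zero_iff.2 h6
    refine ⟨h7, ?_⟩
    have h8 := BB_sub_one_le hβ n h7
    rw [← hKdef] at h8
    have h9 : 3 * (4 / V) = 12 / V := by ring
    linarith
  have hyx : y ∈ ball x (1 / (8 * K)) := by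
    rw [mem_ball_iff_norm, norm_sub_rev, lt_div_iff₀ (by positivity)]
    linarith
  have lip : ‖BB 2 β n x - BB 2 β n y‖ ≤ 200 * K / V * ‖x - y‖ := by
    have h1 := Complex.dist_le_div_mul_dist_of_mapsTo_ball (f := BB 2 β n) (c := x) (z := y)
      (R₁ := 1 / (8 * K)) (R₂ := 25 / V)
      ((BB_diff hβ.diff n).mono fun z hz => (disc z hz).1) (fun z hz => by
        rw [mem_closedBall_iff_norm]
        have h2 := (disc z hz).2
        have h3 := (disc x (mem_ball_self hR)).2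
        have h4 : ‖BB 2 β n z - BB 2 β n x‖ ≤ 12 / V + 12 / V := by
          have h5 : BB 2 β n z - BB 2 β n x = (BB 2 β n z - 1) - (BB 2 β n x - 1) := by ring
          rw [h5]
          exact (norm_sub_le _ _).trans (add_le_add h2 h3)
        refine h4.trans ?_
        rw [← add_div]
        exact div_le_div_of_nonneg_right (by norm_num) hV0.le) hyx
    rw [dist_eq_norm, dist_eq_norm, norm_sub_rev, norm_sub_rev y x] at h1
    have h2 : 25 / V / (1 / (8 * K)) = 200 * K / V := by field_simp; norm_num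
    rwa [h2] at h1
  -- the quotient `x / y = 1 + δ`
  set δ : ℂ := (x - y) / y with hδ
  have hxd : x = y * (1 + δ) := by rw [hδ]; field_simp; ring
  have hδn : ‖δ‖ = ‖x - y‖ / ‖y‖ := by rw [hδ, norm_div]
  have hy00 : 0 < ‖y‖ := norm_pos_iff.2 hy0
  have hy11 : ‖y‖ < 1 := mem_ball_zero_iff.1 hy
  have hδ1 : ‖δ‖ ≤ 4 * ‖x - y‖ := by
    rw [hδn, div_le_iff₀ hy00]
    nlinarith
  have hδ2 : ‖x - y‖ ≤ ‖δ‖ := by
    rw [hδn, le_div_iff₀ hy00]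
    nlinarith
  have hKδ : K * ‖δ‖ ≤ 1 / 25 := by nlinarith
  have hsm := pow_small hKδ
  have hKδ0 : 0 < K * ‖δ‖ := mul_pos hK0 (lt_of_lt_of_le hxy0 hδ2)
  have hKn : ‖(K : ℂ) * δ‖ = K * ‖δ‖ := by rw [norm_mul, Complex.norm_natCast]
  have hup : ‖(1 + δ) ^ K - 1‖ ≤ 1 / 25 + 1 / 625 := by
    have h1 : (1 + δ) ^ K - 1 = ((1 + δ) ^ K - 1 - K * δ) + K * δ := by ring
    rw [h1]
    refine (norm_add_le _ _).trans ?_
    rw [hKn]
    nlinarith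
  have hlow : K * ‖δ‖ / 2 ≤ ‖(1 + δ) ^ K - 1‖ := by
    have h1 : (K : ℂ) * δ = ((1 + δ) ^ K - 1) - ((1 + δ) ^ K - 1 - K * δ) := by ring
    have h2 : K * ‖δ‖ ≤ ‖(1 + δ) ^ K - 1‖ + (K * ‖δ‖) ^ 2 := by
      rw [← hKn]
      conv_lhs => rw [h1]
      rw [hKn]
      exact (norm_sub_le _ _).trans (add_le_add le_rfl hsm)
    nlinarith
  rcases hvw with hvw | hvw
  · -- equal values
    have h1 : BB 2 β n x - BB 2 β n y = y ^ K * v * ((1 + δ) ^ K - 1) := by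
      rw [ex, ey, hvw, hxd, mul_pow]; ring
    rw [h1, norm_mul, norm_mul, norm_pow] at lip
    have h2 : 1 / 2 * (K * ‖x - y‖ / 2) ≤ ‖y‖ ^ K * V * ‖(1 + δ) ^ K - 1‖ := by
      refine mul_le_mul hy1 (le_trans ?_ hlow) (by positivity) (by positivity)
      have : (K : ℝ) * ‖x - y‖ ≤ K * ‖δ‖ := mul_le_mul_of_nonneg_left hδ2 hK0.le
      linarith
    have h3 : 1 / 2 * (K * ‖x - y‖ / 2) ≤ 200 * K / V * ‖x - y‖ := h2.trans lip
    have h4 : 200 * K / V * ‖x - y‖ = 200 / V * (K * ‖x - y‖) := by ring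
    rw [h4] at h3
    have h5 : 0 < K * ‖x - y‖ := by positivity
    have h6 : 200 / V < 1 / 4 := by
      rw [div_lt_iff₀ hV0]; linarith
    nlinarith
  · -- different values
    set c : ℂ := y ^ K * v with hc
    have h1 : BB 2 β n x = (1 + δ) ^ K * c := by rw [ex, hxd, mul_pow, hc]; ring
    have h2 : BB 2 β n y = (w / v) * c := by rw [ey, hc]; field_simp
    have h3 : (1 : ℝ) / 2 ≤ ‖c‖ := by rw [hc, norm_mul, norm_pow]; exact hy1
    have h4 : ((1 + δ) ^ K - w / v) * c = BB 2 β n x - BB 2 β n y := by rw [h1, h2]; ring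
    have h5 : ‖(1 + δ) ^ K - w / v‖ * (1 / 2) ≤ 1 / 5000 := by
      have h6 : ‖(1 + δ) ^ K - w / v‖ * ‖c‖ = ‖BB 2 β n x - BB 2 β n y‖ := by
        rw [← norm_mul, h4]
      have h7 : 200 * K / V * ‖x - y‖ = 200 / V * (K * ‖x - y‖) := by ring
      have h8 : 200 / V ≤ 1 / 50 := by
        rw [div_le_iff₀ hV0]; linarith
      have h9 : 0 < K * ‖x - y‖ := by positivity
      have h10 : 200 / V * (K * ‖x - y‖) ≤ 1 / 50 * (1 / 100) :=
        mul_le_mul h8 hcon.le h9.le (by norm_num)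
      have h11 : ‖(1 + δ) ^ K - w / v‖ * (1 / 2) ≤ ‖(1 + δ) ^ K - w / v‖ * ‖c‖ :=
        mul_le_mul_of_nonneg_left h3 (norm_nonneg _)
      linarith
    have h6 : w / v - 1 = ((1 + δ) ^ K - 1) - ((1 + δ) ^ K - w / v) := by ring
    have h7 : ‖w / v - 1‖ ≤ ‖(1 + δ) ^ K - 1‖ + ‖(1 + δ) ^ K - w / v‖ := by
      rw [h6]; exact norm_sub_le _ _
    linarith

end Pool.Agent.T6.H11.LC
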