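import Mathlib
import Pool.Agent.H713R2.AR.PR
import Pool.Agent.T6.H50.LC.Sys
import Pool.Agent.T6.H49.LC.LCE
import Pool.Agent.T6.H11.LCD

set_option autoImplicit false

/-! # The tree in the disc (module F1 of helper50's project) -/

open Complex Topology Filter Metric MeasureTheory Set N62a1eb23

namespace Pool.Agent.T6.H11.LC

open Pool.Agent.H713R2 Pool.Agent.H712R2 Pool.Agent.T6.H50.LC

/-- signed imaginary part -/
private theorem sim_add (s : Bool) (a b : ℂ) :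
    (if s then (a + b).im else -(a + b).im) = (if s then a.im else -a.im) +
      (if s then b.im else -b.im) := by
  cases s
  · simp; ring
  · simp

private theorem sim_le (s : Bool) (a : ℂ) : |(if s then a.im else -a.im)| ≤ ‖a‖ := by
  cases s
  · simpa using Complex.abs_im_le_norm a
  · simpa using Complex.abs_im_le_norm a

private theorem seg_E {s : Bool} {u v : ℂ} {R : ℝ} (hR : R + 1 ≤ 3 * 10 ^ 8) (hu : ‖u‖ ≤ R)
    (hv : ‖v‖ ≤ R) (hu2 : 2 ≤ (if s then u.im else -u.im))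
    (hv2 : 2 ≤ (if s then v.im else -v.im)) :
    ∀ z ∈ segment ℝ u v, ball z 1 ⊆ E s := by
  intro z hz y hy
  obtain ⟨a, b, ha, hb, hab, rfl⟩ := hz
  rw [mem_ball, dist_eq_norm] at hy
  have hzn : ‖a • u + b • v‖ ≤ R := by
    refine (norm_add_le _ _).trans ?_
    rw [norm_smul, norm_smul, Real.norm_eq_abs, Real.norm_eq_abs, abs_of_nonneg ha,
      abs_of_nonneg hb]
    calc a * ‖u‖ + b * ‖v‖ ≤ a * R + b * R := by
          apply add_le_add (mul_le_mul_of_nonneg_left hu ha) (mul_le_mul_of_nonneg_left hv hb)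
      _ = R := by rw [← add_mul, hab, one_mul]
  have hzi : 2 ≤ (if s then (a • u + b • v).im else -(a • u + b • v).im) := by
    cases s
    · simp only [Bool.false_eq_true, if_false] at hu2 hv2 ⊢
      have : (a • u + b • v).im = a * u.im + b * v.im := by simp
      rw [this]
      nlinarith
    · simp only [if_true] at hu2 hv2 ⊢
      have : (a • u + b • v).im = a * u.im + b * v.im := by simp
      rw [this]
      nlinarith
  set z := a • u + b • v
  have e : y = z + (y - z) := by ring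
  refine ⟨?_, ?_⟩
  · calc ‖y‖ = ‖z + (y - z)‖ := by rw [← e]
      _ ≤ ‖z‖ + ‖y - z‖ := norm_add_le _ _
      _ < 3 * 10 ^ 8 := by linarith
  · have h1 := sim_add s z (y - z)
    rw [← e] at h1
    rw [h1]
    have h2 := sim_le s (y - z)
    have h3 := neg_abs_le (if s then (y - z).im else -(y - z).im)
    linarith

theorem tree_in_disc {β : ℂ → ℂ} (hβ : IsBeta 2 β) {m : ℕ} {κ : List Bool → ℂ → ℂ}
    {vv : Bool → ℂ}
    (k1 : ∀ I : List Bool, I ≠ [] → ∀ s, DifferentiableOn ℂ (κ I) (E s))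
    (k2 : ∀ I : List Bool, I ≠ [] → ∀ s, ∀ v ∈ E s, κ I v ∉ multibrotSet 2)
    (k3 : ∀ I : List Bool, I ≠ [] → ∀ s, ∀ v ∈ E s, P 2 (3 + m + 4 * I.length) (κ I v) = v)
    (k4 : ∀ I : List Bool, I ≠ [] → ∀ σ s : Bool, ∃ w : ℂ, ‖w‖ ≤ 10 ∧
      2 ≤ (if (s == σ) then w.im else -w.im) ∧ κ (I ++ [σ]) (vv s) = κ I w)
    (k5 : ∀ I J : List Bool, I ≠ [] → I.length = J.length → ∀ s t,
      κ I (vv s) = κ J (vv t) → I = J)
    (k6 : ∀ s, 10000 ≤ ‖vv s‖ ∧ ‖vv s‖ ≤ 29 * 10 ^ 7 ∧ 2 ≤ (if s then (vv s).im else -(vv s).im))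
    (k7 : ‖vv true‖ = ‖vv false‖ ∧ 1 / 2 ≤ ‖vv true / vv false - 1‖ ∧
      1 / 2 ≤ ‖vv false / vv true - 1‖) :
    ∃ (x : List Bool → ℂ) (A a h C : ℝ), 0 < A ∧ 0 < a ∧ 0 < h ∧
      (∀ I : List Bool, I ≠ [] → x I ∈ ball (0 : ℂ) 1 ∧ x I ≠ 0 ∧
        (x I)⁻¹ * β (x I) = κ I (vv (I.foldl (· == ·) true))) ∧
      (∀ (I : List Bool) (σ : Bool), I ≠ [] → ‖x (I ++ [σ]) - x I‖ ≤ A / 16 ^ I.length) ∧
      (∀ I J : List Bool, I ≠ [] → I.length = J.length → I ≠ J →
        a / 16 ^ I.length ≤ ‖x I - x J‖) ∧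
      (∀ I : List Bool, I ≠ [] → ‖x I‖ ≤ 1 - h / 16 ^ I.length) ∧
      (∀ I : List Bool, I ≠ [] → 1 - C / 16 ^ I.length ≤ ‖x I‖) := by
  obtain ⟨Φ, hΦd, hΦ⟩ := Pool.Agent.T6.H49.LC.exists_phi hβ
  set sgn : List Bool → Bool := fun I => I.foldl (· == ·) true with hsgn
  set x : List Bool → ℂ := fun I => Φ (κ I (vv (sgn I))) with hx
  have vE : ∀ s : Bool, vv s ∈ E s := by
    intro s
    obtain ⟨h1, h2, h3⟩ := k6 s
    exact ⟨by linarith, by linarith⟩
  have hx1 : ∀ I : List Bool, I ≠ [] → x I ∈ ball (0 : ℂ) 1 ∧ x I ≠ 0 ∧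
      (x I)⁻¹ * β (x I) = κ I (vv (sgn I)) := by
    intro I hI
    exact hΦ _ (k2 I hI _ _ (vE _))
  have hP : ∀ I : List Bool, I ≠ [] →
      P 2 ((2 + m + 4 * I.length) + 1) ((x I)⁻¹ * β (x I)) = vv (sgn I) := by
    intro I hI
    rw [(hx1 I hI).2.2]
    have := k3 I hI _ _ (vE (sgn I))
    rw [show 2 + m + 4 * I.length + 1 = 3 + m + 4 * I.length by ring]
    exact this
  set N : ℝ := 2 ^ (2 + m) with hN
  have hN0 : 0 < N := by positivity
  have hK : ∀ l : ℕ, ((2 ^ (2 + m + 4 * l) : ℕ) : ℝ) = N * 16 ^ l := by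
    intro l
    rw [hN]
    push_cast
    rw [pow_add, pow_mul]
    norm_num
  have hheight : ∀ I : List Bool, I ≠ [] →
      1 / 2 ≤ ‖x I‖ ^ (2 ^ (2 + m + 4 * I.length)) * ‖vv (sgn I)‖ ∧
      ‖x I‖ ^ (2 ^ (2 + m + 4 * I.length)) * ‖vv (sgn I)‖ ≤ 2 := by
    intro I hI
    obtain ⟨h1, h2, h3⟩ := hx1 I hI
    exact height hβ h1 h2 (hP I hI) (by have := (k6 (sgn I)).1; linarith)
  set b : ℝ := Real.log (58 * 10 ^ 7) with hb
  have hb0 : 0 < b := Real.log_pos (by norm_num)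
  -- the upper bound for `1 - ‖x‖`
  have hC : ∀ I : List Bool, I ≠ [] → 1 - ‖x I‖ ≤ (b / N) / 16 ^ I.length := by
    intro I hI
    obtain ⟨h1, h2⟩ := hheight I hI
    set K : ℕ := 2 ^ (2 + m + 4 * I.length) with hKdef
    have hKr : ((K : ℕ) : ℝ) = N * 16 ^ I.length := hK _
    have hK0 : (0:ℝ) < K := by rw [hKr]; positivity
    have h3 := (k6 (sgn I)).2.1
    have h4 : 0 ≤ ‖x I‖ ^ K := by positivity
    have h5 : 1 / (58 * 10 ^ 7) ≤ ‖x I‖ ^ K := by
      have : 1 / 2 ≤ ‖x I‖ ^ K * (29 * 10 ^ 7) := h1.trans (mul_le_mul_of_nonneg_left h3 h4)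
      linarith
    have h6 : ‖x I‖ ≤ Real.exp (-(1 - ‖x I‖)) := by
      have := Real.add_one_le_exp (-(1 - ‖x I‖))
      linarith
    have h7 : ‖x I‖ ^ K ≤ Real.exp (K * (-(1 - ‖x I‖))) := by
      rw [Real.exp_nat_mul]
      exact pow_le_pow_left₀ (norm_nonneg _) h6 _
    have h8 := h5.trans h7
    have h9 : Real.log (1 / (58 * 10 ^ 7)) ≤ K * (-(1 - ‖x I‖)) := by
      have := Real.log_le_log (by norm_num) h8
      rwa [Real.log_exp] at this
    rw [one_div, Real.log_inv] at h9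
    rw [div_div, le_div_iff₀ (by positivity), ← hKr]
    linarith
  refine ⟨x, 3 ^ (Nat.ceil ((2:ℝ) * (29 * 10 ^ 7 + 10))) * (b / N), 1 / (100 * N), 1 / (2 * N),
    b / N, by positivity, by positivity, by positivity, hx1, ?_, ?_, ?_, ?_⟩
  · -- parent and child
    generalize hjdef : Nat.ceil ((2:ℝ) * (29 * 10 ^ 7 + 10)) = j
    have hj : (2:ℝ) * (29 * 10 ^ 7 + 10) ≤ j := by
      rw [← hjdef]; exact Nat.le_ceil _
    clear hjdef
    intro I σ hI
    have hI' : I ++ [σ] ≠ [] := by simp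
    obtain ⟨w, hw1, hw2, hw3⟩ := k4 I hI σ (sgn (I ++ [σ]))
    have hs : (sgn (I ++ [σ]) == σ) = sgn I := by
      have : sgn (I ++ [σ]) = (sgn I == σ) := by
        simp only [hsgn, List.foldl_append, List.foldl_cons, List.foldl_nil]
      rw [this]
      cases sgn I <;> cases σ <;> rfl
    rw [hs] at hw2
    obtain ⟨h1, h2, h3⟩ := k6 (sgn I)
    have hm : MapsTo (Φ ∘ κ I) (E (sgn I)) (ball (0 : ℂ) 1) := by
      intro z hz
      exact (hΦ _ (k2 I hI _ _ hz)).1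
    have hF : DifferentiableOn ℂ (Φ ∘ κ I) (E (sgn I)) :=
      hΦd.comp (k1 I hI _) (fun z hz => k2 I hI _ _ hz)
    have hseg := seg_E (s := sgn I) (u := vv (sgn I)) (v := w) (R := 29 * 10 ^ 7) (by norm_num)
      h2 (by linarith) h3 hw2
    have hjj : ‖w - vv (sgn I)‖ ≤ j * ((1:ℝ) / 2) := by
      have := norm_sub_le w (vv (sgn I))
      linarith
    have h4 := (Pool.Agent.T6.H49.LC.pick_chain hF hm one_pos hseg hjj).2
    have h5 : (Φ ∘ κ I) w = x (I ++ [σ]) := by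
      show Φ (κ I w) = Φ (κ (I ++ [σ]) (vv (sgn (I ++ [σ]))))
      rw [hw3]
    have h6 : (Φ ∘ κ I) (vv (sgn I)) = x I := rfl
    rw [h5, h6] at h4
    refine h4.trans ?_
    rw [mul_div_assoc]
    exact mul_le_mul_of_nonneg_left (hC I hI) (by positivity)
  · -- separation
    intro I J hI hIJ hne
    have hJ : J ≠ [] := by
      intro hJ
      rw [hJ, List.length_nil] at hIJ
      exact hI (List.length_eq_zero_iff.mp hIJ)
    obtain ⟨h1, h2, h3⟩ := hx1 I hI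
    obtain ⟨g1, g2, g3⟩ := hx1 J hJ
    have hPJ := hP J hJ
    rw [← hIJ] at hPJ
    have hxy : x I ≠ x J := by
      intro h
      rw [h] at h3
      exact hne (k5 I J hI hIJ _ _ (h3.symm.trans g3))
    have hnorm : ‖vv (sgn J)‖ = ‖vv (sgn I)‖ := by
      cases sgn I <;> cases sgn J
      · rfl
      · exact k7.1
      · exact k7.1.symm
      · rfl
    have hvw : vv (sgn J) = vv (sgn I) ∨ 1 / 2 ≤ ‖vv (sgn J) / vv (sgn I) - 1‖ := by
      cases sgn I <;> cases sgn J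
      · exact Or.inl rfl
      · exact Or.inr k7.2.1
      · exact Or.inr k7.2.2
      · exact Or.inl rfl
    have hlen : 1 ≤ I.length := List.length_pos_iff.mpr hI
    have hbig : ‖vv (sgn I)‖ ≤ 2 ^ (2 ^ (2 + m + 4 * I.length)) := by
      have e1 : 29 ≤ 2 ^ (2 + m + 4 * I.length) := by
        have : 2 ^ 6 ≤ 2 ^ (2 + m + 4 * I.length) :=
          Nat.pow_le_pow_right (by norm_num) (by omega)
        have h64 : (2:ℕ) ^ 6 = 64 := by norm_num
        omega
      have e2 : (2:ℝ) ^ 29 ≤ 2 ^ (2 ^ (2 + m + 4 * I.length)) :=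
        pow_le_pow_right₀ (by norm_num) e1
      have e3 := (k6 (sgn I)).2.1
      have e4 : (29 * 10 ^ 7 : ℝ) ≤ 2 ^ 29 := by norm_num
      linarith
    have key := separation hβ h1 h2 g1 g2 (hP I hI) hPJ (k6 (sgn I)).1 hbig hnorm hvw hxy
    have hKr := hK I.length
    push_cast at hKr
    rw [hKr] at key
    rw [div_div, div_le_iff₀ (by positivity)]
    nlinarith
  · -- not too close to the circle
    intro I hI
    obtain ⟨h1, h2⟩ := hheight I hI
    set K : ℕ := 2 ^ (2 + m + 4 * I.length) with hKdef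
    have hKr : ((K : ℕ) : ℝ) = N * 16 ^ I.length := hK _
    have hK0 : (0:ℝ) < K := by rw [hKr]; positivity
    have h3 := (k6 (sgn I)).1
    have h4 : 0 ≤ ‖x I‖ ^ K := by positivity
    have h5 : ‖x I‖ ^ K ≤ 1 / 2 := by nlinarith
    have h6 := one_add_mul_le_pow (a := ‖x I‖ - 1) (by have := norm_nonneg (x I); linarith) K
    rw [show 1 + (‖x I‖ - 1) = ‖x I‖ by ring] at h6
    rw [div_div, show 2 * N * 16 ^ I.length = 2 * (N * 16 ^ I.length) by ring, ← hKr]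
    have h7 : 1 / (2 * (K:ℝ)) ≤ 1 - ‖x I‖ := by
      rw [div_le_iff₀ (by positivity)]
      nlinarith
    linarith
  · intro I hI
    have := hC I hI
    linarith

end Pool.Agent.T6.H11.LC
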