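import Mathlib
import Pool.Agent.T6.H45.LCM4

/-!
Module G3 of the project MP_c6f924_an (helper50): the pairing inequality with a split near part
(variation of helper45's module M4).
-/

open Complex Topology Filter Metric MeasureTheory Set

namespace Pool.Agent.T6.H11.LC

open Pool.Agent.T6.H45.LC

/-- the finite estimate -/
theorem finite_est2 {D : ℕ} {h : ℕ → ℂ} {B B' η K ε M : ℝ} {J : ℕ} (hB : 0 < B) (hη : 0 ≤ η)
    (hK : 0 ≤ K) (hε : 0 ≤ ε)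
    (near0 : ∀ k : ℕ, k ≠ D → |(D : ℝ) - k| < J → |(D : ℝ) - k| * ‖h k‖ ≤ η)
    (near : ∀ k : ℕ, k ≠ D → |(D : ℝ) - k| ≤ M → |(D : ℝ) - k| * ‖h k‖ ≤ K)
    (far : ∀ F : Finset ℕ, (∀ k ∈ F, M < |(D : ℝ) - k|) →
      ∑ k ∈ F, |(D : ℝ) - k| * ‖h k‖ ^ 2 ≤ ε ^ 2)
    {X Y : ℕ → ℝ} (hX0 : ∀ p, 0 ≤ X p) (hY0 : ∀ p, 0 ≤ Y p) (hX1 : ∀ p, X p ≤ 1)
    (hY1 : ∀ p, Y p ≤ 1)
    (hBX : ∀ N : ℕ, ∑ p ∈ Finset.Icc 1 N, X p / p ≤ B)
    (hBY : ∀ N : ℕ, ∑ p ∈ Finset.Icc 1 N, Y p / p ≤ B)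
    (hBX' : ∀ N : ℕ, ∑ p ∈ Finset.Icc J N, X p / p ≤ B')
    (hBY' : ∀ N : ℕ, ∑ p ∈ Finset.Icc J N, Y p / p ≤ B') (F : Finset ℕ) (hF : D ∉ F) :
    ∑ k ∈ F, ‖h k‖ * (X (ds D k) + Y (ds D k)) ≤ 4 * η * B + 4 * K * B' + ε * √(8 * B) := by
  classical
  have hBZ : ∀ N : ℕ, ∑ p ∈ Finset.Icc 1 N, (X p + Y p) / p ≤ 2 * B := by
    intro N
    have : ∑ p ∈ Finset.Icc 1 N, (X p + Y p) / p =
        ∑ p ∈ Finset.Icc 1 N, X p / p + ∑ p ∈ Finset.Icc 1 N, Y p / p := by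
      rw [← Finset.sum_add_distrib]
      exact Finset.sum_congr rfl (fun p _ => add_div _ _ _)
    rw [this]
    linarith [hBX N, hBY N]
  have hZ0 : ∀ p : ℕ, 0 ≤ (X p + Y p) / p := by
    intro p
    have := hX0 p
    have := hY0 p
    positivity
  have hBZ' : ∀ N : ℕ, ∑ p ∈ Finset.Icc 1 N, (if J ≤ p then (X p + Y p) / (p : ℝ) else 0) ≤
      2 * B' := by
    intro N
    rw [← Finset.sum_filter]
    have h1 : ∑ p ∈ (Finset.Icc 1 N).filter (fun p => J ≤ p), (X p + Y p) / (p : ℝ) ≤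
        ∑ p ∈ Finset.Icc J N, (X p + Y p) / (p : ℝ) := by
      apply Finset.sum_le_sum_of_subset_of_nonneg
      · intro p hp
        rw [Finset.mem_filter, Finset.mem_Icc] at hp
        rw [Finset.mem_Icc]
        exact ⟨hp.2, hp.1.2⟩
      · intro p _ _; exact hZ0 p
    have h2 : ∑ p ∈ Finset.Icc J N, (X p + Y p) / (p : ℝ) =
        ∑ p ∈ Finset.Icc J N, X p / p + ∑ p ∈ Finset.Icc J N, Y p / p := by
      rw [← Finset.sum_add_distrib]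
      exact Finset.sum_congr rfl (fun p _ => add_div _ _ _)
    linarith [hBX' N, hBY' N]
  set F0 := F.filter (fun k : ℕ => ds D k < J) with hF0
  set F1 := F.filter (fun k : ℕ => ¬ ds D k < J) with hF1
  set Fn := F1.filter (fun k : ℕ => |(D : ℝ) - k| ≤ M) with hFn
  set Ff := F1.filter (fun k : ℕ => ¬ |(D : ℝ) - k| ≤ M) with hFf
  have hsplit : ∑ k ∈ F, ‖h k‖ * (X (ds D k) + Y (ds D k)) =
      ∑ k ∈ F0, ‖h k‖ * (X (ds D k) + Y (ds D k)) +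
      (∑ k ∈ Fn, ‖h k‖ * (X (ds D k) + Y (ds D k)) +
      ∑ k ∈ Ff, ‖h k‖ * (X (ds D k) + Y (ds D k))) := by
    rw [hFn, hFf, Finset.sum_filter_add_sum_filter_not, hF0, hF1,
      Finset.sum_filter_add_sum_filter_not]
  have hD0 : D ∉ F0 := fun h => hF (Finset.mem_filter.1 h).1
  have hD1 : D ∉ F1 := fun h => hF (Finset.mem_filter.1 h).1
  have hDn : D ∉ Fn := fun h => hD1 (Finset.mem_filter.1 h).1
  have hDf : D ∉ Ff := fun h => hD1 (Finset.mem_filter.1 h).1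
  -- innermost part
  have hnear0 : ∑ k ∈ F0, ‖h k‖ * (X (ds D k) + Y (ds D k)) ≤ 4 * η * B := by
    have h1 : ∀ k ∈ F0, ‖h k‖ * (X (ds D k) + Y (ds D k)) ≤
        η * ((X (ds D k) + Y (ds D k)) / (ds D k : ℕ)) := by
      intro k hk
      rw [hF0, Finset.mem_filter] at hk
      have hkD : k ≠ D := by rintro rfl; exact hF hk.1
      have hp := ds_pos hkD
      have hp' : (0 : ℝ) < (ds D k : ℕ) := by exact_mod_cast hp
      have h2 := near0 k hkD (by rw [← ds_cast]; exact_mod_cast hk.2)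
      rw [← ds_cast] at h2
      have h3 : ‖h k‖ ≤ η / (ds D k : ℕ) := by
        rw [le_div_iff₀ hp']; linarith
      calc ‖h k‖ * (X (ds D k) + Y (ds D k)) ≤ η / (ds D k : ℕ) * (X (ds D k) + Y (ds D k)) :=
            mul_le_mul_of_nonneg_right h3 (add_nonneg (hX0 _) (hY0 _))
        _ = η * ((X (ds D k) + Y (ds D k)) / (ds D k : ℕ)) := by ring
    calc ∑ k ∈ F0, ‖h k‖ * (X (ds D k) + Y (ds D k))
        ≤ ∑ k ∈ F0, η * ((X (ds D k) + Y (ds D k)) / (ds D k : ℕ)) := Finset.sum_le_sum h1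
      _ = η * ∑ k ∈ F0, ((X (ds D k) + Y (ds D k)) / (ds D k : ℕ)) := by rw [Finset.mul_sum]
      _ ≤ η * (2 * (2 * B)) :=
          mul_le_mul_of_nonneg_left (twice (Z := fun p : ℕ => (X p + Y p) / p) hZ0 hBZ F0 hD0) hη
      _ = 4 * η * B := by ring
  -- near part
  have hnear : ∑ k ∈ Fn, ‖h k‖ * (X (ds D k) + Y (ds D k)) ≤ 4 * K * B' := by
    have h1 : ∀ k ∈ Fn, ‖h k‖ * (X (ds D k) + Y (ds D k)) ≤
        K * (if J ≤ ds D k then (X (ds D k) + Y (ds D k)) / ((ds D k : ℕ) : ℝ) else 0) := by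
      intro k hk
      rw [hFn, Finset.mem_filter, hF1, Finset.mem_filter] at hk
      have hkD : k ≠ D := by rintro rfl; exact hF hk.1.1
      have hp := ds_pos hkD
      have hp' : (0 : ℝ) < (ds D k : ℕ) := by exact_mod_cast hp
      have h2 := near k hkD hk.2
      rw [← ds_cast] at h2
      have h3 : ‖h k‖ ≤ K / (ds D k : ℕ) := by
        rw [le_div_iff₀ hp']; linarith
      rw [if_pos (not_lt.1 hk.1.2)]
      calc ‖h k‖ * (X (ds D k) + Y (ds D k)) ≤ K / (ds D k : ℕ) * (X (ds D k) + Y (ds D k)) :=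
            mul_le_mul_of_nonneg_right h3 (add_nonneg (hX0 _) (hY0 _))
        _ = K * ((X (ds D k) + Y (ds D k)) / (ds D k : ℕ)) := by ring
    calc ∑ k ∈ Fn, ‖h k‖ * (X (ds D k) + Y (ds D k))
        ≤ ∑ k ∈ Fn, K * (if J ≤ ds D k then (X (ds D k) + Y (ds D k)) / ((ds D k : ℕ) : ℝ)
          else 0) := Finset.sum_le_sum h1
      _ = K * ∑ k ∈ Fn, (if J ≤ ds D k then (X (ds D k) + Y (ds D k)) / ((ds D k : ℕ) : ℝ)
          else 0) := by rw [Finset.mul_sum]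
      _ ≤ K * (2 * (2 * B')) := by
          apply mul_le_mul_of_nonneg_left _ hK
          exact twice (Z := fun p : ℕ => if J ≤ p then (X p + Y p) / (p : ℝ) else 0)
            (fun p => by
              show 0 ≤ if J ≤ p then (X p + Y p) / (p : ℝ) else 0
              split_ifs
              · exact hZ0 p
              · exact le_rfl) hBZ' Fn hDn
      _ = 4 * K * B' := by ring
  -- far part
  have hfar : ∑ k ∈ Ff, ‖h k‖ * (X (ds D k) + Y (ds D k)) ≤ ε * √(8 * B) := by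
    have hfp : ∀ k ∈ Ff, (0 : ℝ) < (ds D k : ℕ) := by
      intro k hk
      have hkD : k ≠ D := by rintro rfl; exact hDf hk
      exact_mod_cast ds_pos hkD
    have h1 : ∀ k ∈ Ff, ‖h k‖ * (X (ds D k) + Y (ds D k)) =
        (√(ds D k : ℕ) * ‖h k‖) * ((X (ds D k) + Y (ds D k)) / √(ds D k : ℕ)) := by
      intro k hk
      have := Real.sqrt_pos.2 (hfp k hk)
      field_simp
    rw [Finset.sum_congr rfl h1]
    refine (Real.sum_mul_le_sqrt_mul_sqrt Ff _ _).trans ?_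
    have h2 : √(∑ k ∈ Ff, (√(ds D k : ℕ) * ‖h k‖) ^ 2) ≤ ε := by
      rw [Real.sqrt_le_left hε]
      have h3 := far Ff (fun k hk => by
        rw [hFf, Finset.mem_filter] at hk
        exact not_le.1 hk.2)
      refine le_trans (le_of_eq (Finset.sum_congr rfl ?_)) h3
      intro k hk
      rw [mul_pow, Real.sq_sqrt (hfp k hk).le, ds_cast]
    have h4 : √(∑ k ∈ Ff, ((X (ds D k) + Y (ds D k)) / √(ds D k : ℕ)) ^ 2) ≤ √(8 * B) := by
      apply Real.sqrt_le_sqrt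
      have h5 : ∀ k ∈ Ff, ((X (ds D k) + Y (ds D k)) / √(ds D k : ℕ)) ^ 2 ≤
          2 * ((X (ds D k) + Y (ds D k)) / (ds D k : ℕ)) := by
        intro k hk
        rw [div_pow, Real.sq_sqrt (hfp k hk).le, ← mul_div_assoc]
        apply div_le_div_of_nonneg_right _ (hfp k hk).le
        have a1 := hX0 (ds D k)
        have a2 := hY0 (ds D k)
        have a3 := hX1 (ds D k)
        have a4 := hY1 (ds D k)
        nlinarith
      calc ∑ k ∈ Ff, ((X (ds D k) + Y (ds D k)) / √(ds D k : ℕ)) ^ 2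
          ≤ ∑ k ∈ Ff, 2 * ((X (ds D k) + Y (ds D k)) / (ds D k : ℕ)) := Finset.sum_le_sum h5
        _ = 2 * ∑ k ∈ Ff, ((X (ds D k) + Y (ds D k)) / (ds D k : ℕ)) := by rw [Finset.mul_sum]
        _ ≤ 2 * (2 * (2 * B)) :=
            mul_le_mul_of_nonneg_left
              (twice (Z := fun p : ℕ => (X p + Y p) / p) hZ0 hBZ Ff hDf) (by norm_num)
        _ = 8 * B := by ring
    exact mul_le_mul h2 h4 (Real.sqrt_nonneg _) hε
  rw [hsplit]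
  linarith

theorem pairing2 {D : ℕ} {h : ℕ → ℂ} {ev : ℂ → ℂ}
    (hsum : ∀ x ∈ ball (0 : ℂ) 1, x ≠ 0 → HasSum (fun k => h k * x ^ k) (x ^ D * ev x))
    {B B' η K ε M γ : ℝ} {J : ℕ} (hB : 0 < B) (hB' : 0 < B') (hη : 0 ≤ η) (hK : 0 ≤ K)
    (hε : 0 ≤ ε)
    (near0 : ∀ k : ℕ, k ≠ D → |(D : ℝ) - k| < J → |(D : ℝ) - k| * ‖h k‖ ≤ η)
    (near : ∀ k : ℕ, k ≠ D → |(D : ℝ) - k| ≤ M → |(D : ℝ) - k| * ‖h k‖ ≤ K)
    (far : ∀ F : Finset ℕ, (∀ k ∈ F, M < |(D : ℝ) - k|) →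
      ∑ k ∈ F, |(D : ℝ) - k| * ‖h k‖ ^ 2 ≤ ε ^ 2)
    (x y : (l : ℕ) → List.Vector Bool l → ℂ)
    (hx : ∀ l v, x l v ∈ ball (0 : ℂ) 1) (hy : ∀ l v, y l v ∈ ball (0 : ℂ) 1)
    (hx1 : ∀ ρ : ℝ, ρ < 1 → ∀ᶠ l in atTop, ∀ v, ρ < ‖x l v‖)
    (hy1 : ∀ ρ : ℝ, ρ < 1 → ∀ᶠ l in atTop, ∀ v, ρ < ‖y l v‖)
    (hBx : ∀ l N : ℕ, ∑ p ∈ Finset.Icc 1 N, ‖∑ v, x l v ^ p‖ / ((2 : ℝ) ^ l * p) ≤ B)
    (hBy : ∀ l N : ℕ, ∑ p ∈ Finset.Icc 1 N, ‖∑ v, y l v ^ p‖ / ((2 : ℝ) ^ l * p) ≤ B)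
    (hBx' : ∀ᶠ l in atTop, ∀ N : ℕ,
      ∑ p ∈ Finset.Icc J N, ‖∑ v, x l v ^ p‖ / ((2 : ℝ) ^ l * p) ≤ B')
    (hBy' : ∀ᶠ l in atTop, ∀ N : ℕ,
      ∑ p ∈ Finset.Icc J N, ‖∑ v, y l v ^ p‖ / ((2 : ℝ) ^ l * p) ≤ B')
    (hγ : ∀ᶠ l in atTop, γ ≤ ‖(∑ v, ev (x l v)) / 2 ^ l - (∑ v, ev (y l v)) / 2 ^ l‖) :
    γ ≤ 4 * η * B + 4 * K * B' + ε * √(8 * B) := by
  classical
  refine le_of_forall_pos_le_add (fun δ hδ => ?_)
  set S : ℝ := ∑ k ∈ Finset.range D, ‖h k‖ with hS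
  have hS0 : 0 ≤ S := Finset.sum_nonneg (fun k _ => norm_nonneg _)
  -- choose ρ
  obtain ⟨ρ, hρ0, hρ1, hρe⟩ : ∃ ρ : ℝ, 0 < ρ ∧ ρ < 1 ∧ S * (2 * (ρ⁻¹ ^ D - ρ ^ D)) ≤ δ := by
    have hc : ContinuousAt (fun ρ : ℝ => S * (2 * (ρ⁻¹ ^ D - ρ ^ D))) 1 := by
      have : ContinuousAt (fun ρ : ℝ => ρ⁻¹) 1 := continuousAt_inv₀ one_ne_zero
      fun_prop
    have h0 : S * (2 * ((1 : ℝ)⁻¹ ^ D - 1 ^ D)) = 0 := by simp
    have h1 : ∀ᶠ ρ in 𝓝 (1 : ℝ), S * (2 * (ρ⁻¹ ^ D - ρ ^ D)) < δ := by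
      have hc' : Tendsto (fun ρ : ℝ => S * (2 * (ρ⁻¹ ^ D - ρ ^ D))) (𝓝 1)
          (𝓝 (S * (2 * ((1 : ℝ)⁻¹ ^ D - 1 ^ D)))) := hc
      rw [h0] at hc'
      exact hc'.eventually (eventually_lt_nhds hδ)
    have h2 : ∀ᶠ ρ in 𝓝[<] (1 : ℝ), S * (2 * (ρ⁻¹ ^ D - ρ ^ D)) < δ :=
      nhdsWithin_le_nhds h1
    have h3 : ∀ᶠ ρ in 𝓝[<] (1 : ℝ), 0 < ρ :=
      nhdsWithin_le_nhds (eventually_gt_nhds one_pos)
    have h4 : ∀ᶠ ρ in 𝓝[<] (1 : ℝ), ρ < 1 := eventually_mem_nhdsWithin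
    obtain ⟨ρ, a, b, c⟩ := (h2.and (h3.and h4)).exists
    exact ⟨ρ, b, c, a.le⟩
  obtain ⟨l, hl1, hl2, hl3, hl4, hl5⟩ :=
    ((hx1 ρ hρ1).and ((hy1 ρ hρ1).and (hγ.and (hBx'.and hBy')))).exists
  have hx0 : ∀ v, x l v ≠ 0 := fun v => norm_pos_iff.1 (hρ0.trans (hl1 v))
  have hy0 : ∀ v, y l v ≠ 0 := fun v => norm_pos_iff.1 (hρ0.trans (hl2 v))
  have hxn : ∀ v, ‖x l v‖ < 1 := fun v => by simpa using hx l v
  have hyn : ∀ v, ‖y l v‖ < 1 := fun v => by simpa using hy l v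
  set N : ℝ := (2 : ℝ) ^ l with hN
  have hN0 : 0 < N := by positivity
  have hNc : N = Fintype.card (List.Vector Bool l) := by
    rw [card_vector, Fintype.card_bool, hN]; push_cast; rfl
  have hNC : ((2 : ℂ) ^ l) = (N : ℂ) := by rw [hN]; push_cast; rfl
  refine hl3.trans ?_
  rw [hNC]
  have hs1 := fam hsum (x l) (hx l) hx0 (N : ℂ)
  have hs2 := fam hsum (y l) (hy l) hy0 (N : ℂ)
  set a : ℕ → ℂ := fun k => (∑ v, x l v ^ k * ((x l v)⁻¹) ^ D) / (N : ℂ) with ha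
  set b : ℕ → ℂ := fun k => (∑ v, y l v ^ k * ((y l v)⁻¹) ^ D) / (N : ℂ) with hb
  have hs : HasSum (fun k => h k * a k - h k * b k)
      ((∑ v, ev (x l v)) / (N : ℂ) - (∑ v, ev (y l v)) / (N : ℂ)) := hs1.sub hs2
  set X : ℕ → ℝ := fun p => ‖∑ v, x l v ^ p‖ / N with hX
  set Y : ℕ → ℝ := fun p => ‖∑ v, y l v ^ p‖ / N with hY
  have hX0 : ∀ p, 0 ≤ X p := fun p => by rw [hX]; positivity
  have hY0 : ∀ p, 0 ≤ Y p := fun p => by rw [hY]; positivity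
  have hX1 : ∀ p, X p ≤ 1 := by
    intro p
    rw [hX]
    show ‖∑ v, x l v ^ p‖ / N ≤ 1
    rw [div_le_one hN0]
    refine (norm_sum_le_of_le (f := fun v => x l v ^ p) (n := fun _ => (1 : ℝ)) _ (fun v _ => ?_)).trans ?_
    · rw [norm_pow]; exact pow_le_one₀ (norm_nonneg _) (hxn v).le
    · rw [Finset.sum_const, Finset.card_univ, nsmul_eq_mul, mul_one, hNc]
  have hY1 : ∀ p, Y p ≤ 1 := by
    intro p
    rw [hY]
    show ‖∑ v, y l v ^ p‖ / N ≤ 1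
    rw [div_le_one hN0]
    refine (norm_sum_le_of_le (f := fun v => y l v ^ p) (n := fun _ => (1 : ℝ)) _ (fun v _ => ?_)).trans ?_
    · rw [norm_pow]; exact pow_le_one₀ (norm_nonneg _) (hyn v).le
    · rw [Finset.sum_const, Finset.card_univ, nsmul_eq_mul, mul_one, hNc]
  have hBX : ∀ N' : ℕ, ∑ p ∈ Finset.Icc 1 N', X p / p ≤ B := by
    intro N'
    refine le_trans (le_of_eq (Finset.sum_congr rfl ?_)) (hBx l N')
    intro p _
    rw [hX, hN, div_div]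
  have hBY : ∀ N' : ℕ, ∑ p ∈ Finset.Icc 1 N', Y p / p ≤ B := by
    intro N'
    refine le_trans (le_of_eq (Finset.sum_congr rfl ?_)) (hBy l N')
    intro p _
    rw [hY, hN, div_div]
  have hBX' : ∀ N' : ℕ, ∑ p ∈ Finset.Icc J N', X p / p ≤ B' := by
    intro N'
    refine le_trans (le_of_eq (Finset.sum_congr rfl ?_)) (hl4 N')
    intro p _
    rw [hX, hN, div_div]
  have hBY' : ∀ N' : ℕ, ∑ p ∈ Finset.Icc J N', Y p / p ≤ B' := by
    intro N'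
    refine le_trans (le_of_eq (Finset.sum_congr rfl ?_)) (hl5 N')
    intro p _
    rw [hY, hN, div_div]
  set e : ℝ := ρ⁻¹ ^ D - ρ ^ D with he
  have he0 : 0 ≤ e := by
    have h1 : ρ ^ D ≤ 1 := pow_le_one₀ hρ0.le hρ1.le
    have h2 : 1 ≤ ρ⁻¹ ^ D := one_le_pow₀ (by rw [one_le_inv₀ hρ0]; exact hρ1.le)
    linarith
  have haD : a D = 1 := coef_D (x l) hx0 hNc hN0
  have hbD : b D = 1 := coef_D (y l) hy0 hNc hN0
  have hak : ∀ k, k ≠ D → ‖a k‖ ≤ X (ds D k) + (if k < D then e else 0) := fun k hk =>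
    coef_le (x l) hx0 hρ0 hρ1 hl1 hxn hNc hN0 k hk
  have hbk : ∀ k, k ≠ D → ‖b k‖ ≤ Y (ds D k) + (if k < D then e else 0) := fun k hk =>
    coef_le (y l) hy0 hρ0 hρ1 hl2 hyn hNc hN0 k hk
  have hfin : ∀ F : Finset ℕ, ‖∑ k ∈ F, (h k * a k - h k * b k)‖ ≤
      4 * η * B + 4 * K * B' + ε * √(8 * B) + δ := by
    intro F
    have h1 : ∑ k ∈ F, (h k * a k - h k * b k) = ∑ k ∈ F.erase D, (h k * a k - h k * b k) := by
      symm
      apply Finset.sum_subset (Finset.erase_subset _ _)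
      intro k hk hk'
      have : k = D := by
        by_contra hne
        exact hk' (Finset.mem_erase.2 ⟨hne, hk⟩)
      rw [this, haD, hbD, sub_self]
    rw [h1]
    have h2 : ∀ k ∈ F.erase D, ‖h k * a k - h k * b k‖ ≤
        ‖h k‖ * (X (ds D k) + Y (ds D k)) + (if k < D then ‖h k‖ * (2 * e) else 0) := by
      intro k hk
      have hkD : k ≠ D := (Finset.mem_erase.1 hk).1
      rw [← mul_sub, norm_mul]
      have h3 : ‖a k - b k‖ ≤ (X (ds D k) + (if k < D then e else 0)) +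
          (Y (ds D k) + (if k < D then e else 0)) :=
        (norm_sub_le _ _).trans (add_le_add (hak k hkD) (hbk k hkD))
      refine (mul_le_mul_of_nonneg_left h3 (norm_nonneg _)).trans (le_of_eq ?_)
      split_ifs <;> ring
    refine (norm_sum_le_of_le _ h2).trans ?_
    rw [Finset.sum_add_distrib]
    have h4 := finite_est2 hB hη hK hε near0 near far hX0 hY0 hX1 hY1 hBX hBY hBX' hBY'
      (F.erase D) (Finset.notMem_erase _ _)
    have h5 : ∑ k ∈ F.erase D, (if k < D then ‖h k‖ * (2 * e) else 0) ≤ S * (2 * e) := by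
      rw [← Finset.sum_filter, hS, Finset.sum_mul]
      apply Finset.sum_le_sum_of_subset_of_nonneg
      · intro k hk
        rw [Finset.mem_filter] at hk
        exact Finset.mem_range.2 hk.2
      · intro k _ _; positivity
    linarith
  exact le_of_tendsto' hs.norm hfin

end Pool.Agent.T6.H11.LC
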